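import Mathlib

set_option autoImplicit false

namespace Pool.Agent.R682

/-- Property `(∗)` for a finite group `G` and a prime `p`: for every abelian subgroup `A` of `G`
of order prime to `p` and every proper subgroup `H` of `G`, some conjugate
`A^x = x⁻¹ A x` of `A` meets `H` trivially. -/
def HasStar (p : ℕ) (G : Type*) [Group G] : Prop :=
  ∀ A : Subgroup G, (∀ a ∈ A, ∀ b ∈ A, a * b = b * a) → Nat.Coprime (Nat.card A) p →
    ∀ H : Subgroup G, H ≠ ⊤ → ∃ x : G, ∀ a ∈ A, x⁻¹ * a * x ∈ H → x⁻¹ * a * x = 1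

/-- A criterion for the failure of `(∗)`: a subgroup `A` every one of whose conjugates meets `H`. -/
theorem not_hasStar {p : ℕ} {G : Type*} [Group G] (A : Subgroup G)
    (hab : ∀ a ∈ A, ∀ b ∈ A, a * b = b * a) (hp : Nat.Coprime (Nat.card A) p)
    (H : Subgroup G) (hH : H ≠ ⊤)
    (h : ∀ x : G, ∃ a ∈ A, a ≠ 1 ∧ x⁻¹ * a * x ∈ H) : ¬ HasStar p G := by
  intro hs
  obtain ⟨x, hx⟩ := hs A hab hp H hH
  obtain ⟨a, ha, ha1, haH⟩ := h x
  have h1 := hx a ha haH
  apply ha1
  calc a = x * (x⁻¹ * a * x) * x⁻¹ := by group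
    _ = 1 := by rw [h1]; group

/-- A commutative subgroup all of whose elements satisfy `a ^ k = 1`, with `k` prime to `p`, in
a finite group, has order prime to `p`. -/
theorem coprime_card {p k : ℕ} (hp : p.Prime) (hk : Nat.Coprime k p) {G : Type*} [Group G] [Finite G]
    (A : Subgroup G) (h : ∀ a ∈ A, a ^ k = 1) : Nat.Coprime (Nat.card A) p := by
  rw [Nat.coprime_comm, Nat.Prime.coprime_iff_not_dvd hp]
  intro hdvd
  have : Fact p.Prime := ⟨hp⟩
  obtain ⟨a, ha⟩ := exists_prime_orderOf_dvd_card' (G := A) p hdvd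
  have h1 : a ^ k = 1 := by
    apply Subtype.ext
    rw [Subgroup.coe_pow, h a a.2, Subgroup.coe_one]
  have h2 : p ∣ k := by rw [← ha]; exact orderOf_dvd_of_pow_eq_one h1
  have h3 : p ∣ Nat.gcd k p := Nat.dvd_gcd h2 dvd_rfl
  rw [hk] at h3
  exact hp.one_lt.ne' (Nat.dvd_one.1 h3)

end Pool.Agent.R682
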