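import Mathlib

set_option autoImplicit false

namespace Pool.Agent.R682

/-- In a group generated by `a` and `b` with `a² = b³ = (ab)⁵ = 1` every element is one of
sixty explicit products. -/
theorem triangle_bound {G : Type*} [Group G] (a b : G) (ha : a * a = 1) (hb : b * b * b = 1)
    (hab : (a * b) ^ 5 = 1) :
    ∃ T : List G, T.length = 60 ∧ ∀ g ∈ Subgroup.closure ({a, b} : Set G), g ∈ T := by
  obtain ⟨c, hc⟩ : ∃ c : G, b * b = c := ⟨_, rfl⟩

  have r1 : ∀ t : G, a * (a * t) = t := by
    intro t; rw [← mul_assoc, ha, one_mul]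
  have r2 : ∀ t : G, b * (b * t) = c * t := by
    intro t; rw [← mul_assoc, hc]
  have r3 : ∀ t : G, b * (c * t) = t := by
    intro t; rw [← mul_assoc, ← hc, ← mul_assoc, hb, one_mul]
  have r4 : ∀ t : G, c * (b * t) = t := by
    intro t; rw [← mul_assoc, ← hc, hb, one_mul]
  have r5 : ∀ t : G, c * (c * t) = b * t := by
    intro t; rw [← r2 (c * t), r3]
  have r6 : ∀ t : G, a * (b * (a * (b * (a * (b * (a * (b * (a * (b * t))))))))) = t := by
    intro t
    have h := congrArg (· * t) hab
    simpa only [pow_succ, pow_zero, one_mul, mul_assoc] using h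
  have r7 : ∀ t : G, b * (a * (b * (a * (b * (a * (b * (a * (b * t)))))))) = a * t := by
    intro t
    have e1 : a * (a * (b * (a * (b * (a * (b * (a * (b * (a * (b * t)))))))))) = b * (a * (b * (a * (b * (a * (b * (a * (b * t)))))))) := r1 (b * (a * (b * (a * (b * (a * (b * (a * (b * t)))))))))
    have e2 : a * (a * (b * (a * (b * (a * (b * (a * (b * (a * (b * t)))))))))) = a * t := by rw [r6 t]
    have e3 : b * (a * (b * (a * (b * (a * (b * (a * (b * t)))))))) = b * (a * (b * (a * (b * (a * (b * (a * (b * t)))))))) := rfl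
    have e4 : a * t = a * t := rfl
    exact (e3.symm.trans (e1.symm.trans (e2.trans e4)))
  have r9 : ∀ t : G, a * (b * (a * (b * (a * (b * (a * (b * (a * t)))))))) = c * t := by
    intro t
    have e1 : a * (b * (a * (b * (a * (b * (a * (b * (a * (b * (c * t)))))))))) = c * t := r6 (c * t)
    have e2 : a * (b * (a * (b * (a * (b * (a * (b * (a * (b * (c * t)))))))))) = a * (b * (a * (b * (a * (b * (a * (b * (a * t)))))))) := by rw [r3 t]
    have e3 : c * t = c * t := rfl
    have e4 : a * (b * (a * (b * (a * (b * (a * (b * (a * t)))))))) = a * (b * (a * (b * (a * (b * (a * (b * (a * t)))))))) := rfl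
    exact (e3.symm.trans (e1.symm.trans (e2.trans e4))).symm
  have r10 : ∀ t : G, b * (a * (b * (a * (b * (a * (b * (a * t))))))) = a * (c * t) := by
    intro t
    have e1 : a * (a * (b * (a * (b * (a * (b * (a * (b * (a * t))))))))) = b * (a * (b * (a * (b * (a * (b * (a * t))))))) := r1 (b * (a * (b * (a * (b * (a * (b * (a * t))))))))
    have e2 : a * (a * (b * (a * (b * (a * (b * (a * (b * (a * t))))))))) = a * (c * t) := by rw [r9 t]
    have e3 : b * (a * (b * (a * (b * (a * (b * (a * t))))))) = b * (a * (b * (a * (b * (a * (b * (a * t))))))) := rfl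
    have e4 : a * (c * t) = a * (c * t) := rfl
    exact (e3.symm.trans (e1.symm.trans (e2.trans e4)))
  have r13 : ∀ t : G, b * (a * (b * (a * (b * (a * (b * t)))))) = a * (c * (a * t)) := by
    intro t
    have e1 : b * (a * (b * (a * (b * (a * (b * (a * (b * (a * (b * (a * (b * (a * (b * (a * (b * t)))))))))))))))) = a * (a * (b * (a * (b * (a * (b * (a * (b * t)))))))) := r7 (a * (b * (a * (b * (a * (b * (a * (b * t))))))))
    have e2 : b * (a * (b * (a * (b * (a * (b * (a * (b * (a * (b * (a * (b * (a * (b * (a * (b * t)))))))))))))))) = b * (a * (b * (a * (b * (a * (b * (a * (a * t)))))))) := by rw [r7 t]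
    have e3 : a * (a * (b * (a * (b * (a * (b * (a * (b * t)))))))) = b * (a * (b * (a * (b * (a * (b * t)))))) := by rw [r1 (b * (a * (b * (a * (b * (a * (b * t)))))))]
    have e4 : b * (a * (b * (a * (b * (a * (b * (a * (a * t)))))))) = a * (c * (a * t)) := by rw [r10 (a * t)]
    exact (e3.symm.trans (e1.symm.trans (e2.trans e4)))
  have r14 : ∀ t : G, b * (a * (b * (a * (b * (a * t))))) = a * (c * (a * (c * t))) := by
    intro t
    have e1 : b * (a * (b * (a * (b * (a * (b * (a * (b * (a * (b * (a * (b * (a * (b * (a * t))))))))))))))) = a * (a * (b * (a * (b * (a * (b * (a * t))))))) := r7 (a * (b * (a * (b * (a * (b * (a * t)))))))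
    have e2 : b * (a * (b * (a * (b * (a * (b * (a * (b * (a * (b * (a * (b * (a * (b * (a * t))))))))))))))) = b * (a * (b * (a * (b * (a * (b * (c * t))))))) := by rw [r9 t]
    have e3 : a * (a * (b * (a * (b * (a * (b * (a * t))))))) = b * (a * (b * (a * (b * (a * t))))) := by rw [r1 (b * (a * (b * (a * (b * (a * t))))))]
    have e4 : b * (a * (b * (a * (b * (a * (b * (c * t))))))) = a * (c * (a * (c * t))) := by rw [r13 (c * t)]
    exact (e3.symm.trans (e1.symm.trans (e2.trans e4)))
  have r15 : ∀ t : G, a * (b * (a * (b * (a * (b * t))))) = c * (a * (c * (a * t))) := by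
    intro t
    have e1 : a * (b * (a * (b * (a * (b * (a * (b * (a * (b * (a * (b * (a * (b * (a * (b * t))))))))))))))) = c * (b * (a * (b * (a * (b * (a * (b * t))))))) := r9 (b * (a * (b * (a * (b * (a * (b * t)))))))
    have e2 : a * (b * (a * (b * (a * (b * (a * (b * (a * (b * (a * (b * (a * (b * (a * (b * t))))))))))))))) = a * (b * (a * (b * (a * (b * (a * (a * t))))))) := by rw [r7 t]
    have e3 : c * (b * (a * (b * (a * (b * (a * (b * t))))))) = a * (b * (a * (b * (a * (b * t))))) := by rw [r4 (a * (b * (a * (b * (a * (b * t))))))]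
    have e4 : a * (b * (a * (b * (a * (b * (a * (a * t))))))) = c * (a * (c * (a * t))) := by rw [r14 (a * t), r1 (c * (a * (c * (a * t))))]
    exact (e3.symm.trans (e1.symm.trans (e2.trans e4)))
  have r16 : ∀ t : G, c * (a * (c * (a * (c * t)))) = a * (b * (a * (b * (a * t)))) := by
    intro t
    have e1 : a * (b * (a * (b * (a * (b * (a * (b * (a * (b * (a * (b * (a * (b * (a * t)))))))))))))) = c * (b * (a * (b * (a * (b * (a * t)))))) := r9 (b * (a * (b * (a * (b * (a * t))))))
    have e2 : a * (b * (a * (b * (a * (b * (a * (b * (a * (b * (a * (b * (a * (b * (a * t)))))))))))))) = a * (b * (a * (b * (a * (b * (c * t)))))) := by rw [r9 t]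
    have e3 : c * (b * (a * (b * (a * (b * (a * t)))))) = a * (b * (a * (b * (a * t)))) := by rw [r4 (a * (b * (a * (b * (a * t)))))]
    have e4 : a * (b * (a * (b * (a * (b * (c * t)))))) = c * (a * (c * (a * (c * t)))) := by rw [r15 (c * t)]
    exact (e3.symm.trans (e1.symm.trans (e2.trans e4))).symm
  have r17 : ∀ t : G, b * (a * (b * (a * (b * t)))) = a * (c * (a * (c * (a * t)))) := by
    intro t
    have e1 : a * (a * (b * (a * (b * (a * (b * t)))))) = b * (a * (b * (a * (b * t)))) := r1 (b * (a * (b * (a * (b * t)))))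
    have e2 : a * (a * (b * (a * (b * (a * (b * t)))))) = a * (c * (a * (c * (a * t)))) := by rw [r15 t]
    have e3 : b * (a * (b * (a * (b * t)))) = b * (a * (b * (a * (b * t)))) := rfl
    have e4 : a * (c * (a * (c * (a * t)))) = a * (c * (a * (c * (a * t)))) := rfl
    exact (e3.symm.trans (e1.symm.trans (e2.trans e4)))
  have r18 : ∀ t : G, c * (a * (b * (a * (b * (a * t))))) = b * (a * (c * (a * (c * t)))) := by
    intro t
    have e1 : b * (b * (a * (b * (a * (b * (a * t)))))) = c * (a * (b * (a * (b * (a * t))))) := r2 (a * (b * (a * (b * (a * t)))))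
    have e2 : b * (b * (a * (b * (a * (b * (a * t)))))) = b * (a * (c * (a * (c * t)))) := by rw [r14 t]
    have e3 : c * (a * (b * (a * (b * (a * t))))) = c * (a * (b * (a * (b * (a * t))))) := rfl
    have e4 : b * (a * (c * (a * (c * t)))) = b * (a * (c * (a * (c * t)))) := rfl
    exact (e3.symm.trans (e1.symm.trans (e2.trans e4)))
  have r19 : ∀ t : G, a * (b * (a * (b * (a * (c * t))))) = c * (a * (c * (a * (b * t)))) := by
    intro t
    have e1 : a * (b * (a * (b * (a * (b * (b * t)))))) = c * (a * (c * (a * (b * t)))) := r15 (b * t)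
    have e2 : a * (b * (a * (b * (a * (b * (b * t)))))) = a * (b * (a * (b * (a * (c * t))))) := by rw [r2 t]
    have e3 : c * (a * (c * (a * (b * t)))) = c * (a * (c * (a * (b * t)))) := rfl
    have e4 : a * (b * (a * (b * (a * (c * t))))) = a * (b * (a * (b * (a * (c * t))))) := rfl
    exact (e3.symm.trans (e1.symm.trans (e2.trans e4))).symm
  have r20 : ∀ t : G, a * (c * (a * (c * (a * (b * t))))) = b * (a * (b * (a * (c * t)))) := by
    intro t
    have e1 : a * (a * (b * (a * (b * (a * (c * t)))))) = b * (a * (b * (a * (c * t)))) := r1 (b * (a * (b * (a * (c * t)))))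
    have e2 : a * (a * (b * (a * (b * (a * (c * t)))))) = a * (c * (a * (c * (a * (b * t))))) := by rw [r19 t]
    have e3 : b * (a * (b * (a * (c * t)))) = b * (a * (b * (a * (c * t)))) := rfl
    have e4 : a * (c * (a * (c * (a * (b * t))))) = a * (c * (a * (c * (a * (b * t))))) := rfl
    exact (e3.symm.trans (e1.symm.trans (e2.trans e4))).symm
  have r21 : ∀ t : G, b * (a * (c * (a * (c * (a * t))))) = c * (a * (b * (a * (b * t)))) := by
    intro t
    have e1 : b * (b * (a * (b * (a * (b * t))))) = c * (a * (b * (a * (b * t)))) := r2 (a * (b * (a * (b * t))))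
    have e2 : b * (b * (a * (b * (a * (b * t))))) = b * (a * (c * (a * (c * (a * t))))) := by rw [r17 t]
    have e3 : c * (a * (b * (a * (b * t)))) = c * (a * (b * (a * (b * t)))) := rfl
    have e4 : b * (a * (c * (a * (c * (a * t))))) = b * (a * (c * (a * (c * (a * t))))) := rfl
    exact (e3.symm.trans (e1.symm.trans (e2.trans e4))).symm
  have r22 : ∀ t : G, c * (a * (c * (a * (b * (a * (c * (a * (c * t)))))))) = a * (b * (a * (c * (a * (b * (a * t)))))) := by
    intro t
    have e1 : c * (a * (c * (a * (c * (a * (b * (a * (b * (a * t))))))))) = a * (b * (a * (b * (a * (a * (b * (a * (b * (a * t))))))))) := r16 (a * (b * (a * (b * (a * t)))))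
    have e2 : c * (a * (c * (a * (c * (a * (b * (a * (b * (a * t))))))))) = c * (a * (c * (a * (b * (a * (c * (a * (c * t)))))))) := by rw [r18 t]
    have e3 : a * (b * (a * (b * (a * (a * (b * (a * (b * (a * t))))))))) = a * (b * (a * (c * (a * (b * (a * t)))))) := by rw [r1 (b * (a * (b * (a * t)))), r2 (a * (b * (a * t)))]
    have e4 : c * (a * (c * (a * (b * (a * (c * (a * (c * t)))))))) = c * (a * (c * (a * (b * (a * (c * (a * (c * t)))))))) := rfl
    exact (e3.symm.trans (e1.symm.trans (e2.trans e4))).symm
  have r23 : ∀ t : G, b * (a * (b * (a * (c * (a * (b * (a * t))))))) = a * (c * (a * (b * (a * (c * (a * (c * t))))))) := by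
    intro t
    have e1 : b * (c * (a * (c * (a * (b * (a * (c * (a * (c * t))))))))) = a * (c * (a * (b * (a * (c * (a * (c * t))))))) := r3 (a * (c * (a * (b * (a * (c * (a * (c * t))))))))
    have e2 : b * (c * (a * (c * (a * (b * (a * (c * (a * (c * t))))))))) = b * (a * (b * (a * (c * (a * (b * (a * t))))))) := by rw [r22 t]
    have e3 : a * (c * (a * (b * (a * (c * (a * (c * t))))))) = a * (c * (a * (b * (a * (c * (a * (c * t))))))) := rfl
    have e4 : b * (a * (b * (a * (c * (a * (b * (a * t))))))) = b * (a * (b * (a * (c * (a * (b * (a * t))))))) := rfl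
    exact (e3.symm.trans (e1.symm.trans (e2.trans e4))).symm
  have r24 : ∀ t : G, b * (a * (c * (a * (b * (a * (c * (a * (c * t)))))))) = c * (a * (b * (a * (c * (a * (b * (a * t))))))) := by
    intro t
    have e1 : c * (c * (a * (c * (a * (b * (a * (c * (a * (c * t))))))))) = b * (a * (c * (a * (b * (a * (c * (a * (c * t)))))))) := r5 (a * (c * (a * (b * (a * (c * (a * (c * t))))))))
    have e2 : c * (c * (a * (c * (a * (b * (a * (c * (a * (c * t))))))))) = c * (a * (b * (a * (c * (a * (b * (a * t))))))) := by rw [r22 t]
    have e3 : b * (a * (c * (a * (b * (a * (c * (a * (c * t)))))))) = b * (a * (c * (a * (b * (a * (c * (a * (c * t)))))))) := rfl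
    have e4 : c * (a * (b * (a * (c * (a * (b * (a * t))))))) = c * (a * (b * (a * (c * (a * (b * (a * t))))))) := rfl
    exact (e3.symm.trans (e1.symm.trans (e2.trans e4)))
  have r25 : ∀ t : G, c * (a * (b * (a * (c * (a * (b * (a * (c * t)))))))) = b * (a * (c * (a * (b * (a * (c * (a * (b * t)))))))) := by
    intro t
    have e1 : c * (a * (b * (a * (b * (a * (c * (a * (c * (a * (b * t)))))))))) = b * (a * (c * (a * (c * (c * (a * (c * (a * (b * t))))))))) := r18 (c * (a * (c * (a * (b * t)))))
    have e2 : c * (a * (b * (a * (b * (a * (c * (a * (c * (a * (b * t)))))))))) = c * (a * (b * (a * (b * (b * (a * (b * (a * (c * t))))))))) := by rw [r20 t]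
    have e3 : b * (a * (c * (a * (c * (c * (a * (c * (a * (b * t))))))))) = b * (a * (c * (a * (b * (a * (c * (a * (b * t)))))))) := by rw [r5 (a * (c * (a * (b * t))))]
    have e4 : c * (a * (b * (a * (b * (b * (a * (b * (a * (c * t))))))))) = c * (a * (b * (a * (c * (a * (b * (a * (c * t)))))))) := by rw [r2 (a * (b * (a * (c * t))))]
    exact (e3.symm.trans (e1.symm.trans (e2.trans e4))).symm
  have r26 : ∀ t : G, c * (a * (b * (a * (c * (a * (b * (a * (b * t)))))))) = b * (a * (c * (a * (b * (a * (c * (a * t))))))) := by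
    intro t
    have e1 : c * (a * (b * (a * (b * (a * (c * (a * (c * (a * t))))))))) = b * (a * (c * (a * (c * (c * (a * (c * (a * t)))))))) := r18 (c * (a * (c * (a * t))))
    have e2 : c * (a * (b * (a * (b * (a * (c * (a * (c * (a * t))))))))) = c * (a * (b * (a * (c * (a * (b * (a * (b * t)))))))) := by rw [r21 t]
    have e3 : b * (a * (c * (a * (c * (c * (a * (c * (a * t)))))))) = b * (a * (c * (a * (b * (a * (c * (a * t))))))) := by rw [r5 (a * (c * (a * t)))]
    have e4 : c * (a * (b * (a * (c * (a * (b * (a * (b * t)))))))) = c * (a * (b * (a * (c * (a * (b * (a * (b * t)))))))) := rfl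
    exact (e3.symm.trans (e1.symm.trans (e2.trans e4))).symm
  have r28 : ∀ t : G, c * (a * (c * (a * (b * (a * (c * (a * t))))))) = a * (b * (a * (c * (a * (b * (a * (b * t))))))) := by
    intro t
    have e1 : a * (b * (a * (b * (a * (c * (a * (c * (a * t)))))))) = c * (a * (c * (a * (b * (a * (c * (a * t))))))) := r19 (a * (c * (a * t)))
    have e2 : a * (b * (a * (b * (a * (c * (a * (c * (a * t)))))))) = a * (b * (a * (c * (a * (b * (a * (b * t))))))) := by rw [r21 t]
    have e3 : c * (a * (c * (a * (b * (a * (c * (a * t))))))) = c * (a * (c * (a * (b * (a * (c * (a * t))))))) := rfl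
    have e4 : a * (b * (a * (c * (a * (b * (a * (b * t))))))) = a * (b * (a * (c * (a * (b * (a * (b * t))))))) := rfl
    exact (e3.symm.trans (e1.symm.trans (e2.trans e4)))
  have r30 : ∀ t : G, b * (a * (c * (a * (b * (a * (c * (a * (b * (a * t))))))))) = a * (b * (a * (c * (a * (b * (a * (c * (a * (b * t))))))))) := by
    intro t
    have e1 : b * (a * (b * (a * (c * (a * (b * (a * (c * (a * (c * t)))))))))) = a * (c * (a * (b * (a * (c * (a * (c * (c * (a * (c * t)))))))))) := r23 (c * (a * (c * t)))
    have e2 : b * (a * (b * (a * (c * (a * (b * (a * (c * (a * (c * t)))))))))) = b * (a * (c * (a * (b * (a * (c * (a * (b * (a * t))))))))) := by rw [r24 t]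
    have e3 : a * (c * (a * (b * (a * (c * (a * (c * (c * (a * (c * t)))))))))) = a * (b * (a * (c * (a * (b * (a * (c * (a * (b * t))))))))) := by rw [r5 (a * (c * t)), r25 t]
    have e4 : b * (a * (c * (a * (b * (a * (c * (a * (b * (a * t))))))))) = b * (a * (c * (a * (b * (a * (c * (a * (b * (a * t))))))))) := rfl
    exact (e3.symm.trans (e1.symm.trans (e2.trans e4))).symm
  obtain ⟨T, hT⟩ : ∃ T : List G, T = [1,
    a * 1,
    b * 1,
    c * 1,
    b * (a * 1),
    c * (a * 1),
    a * (b * 1),
    a * (c * 1),
    a * (b * (a * 1)),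
    a * (c * (a * 1)),
    b * (a * (b * 1)),
    c * (a * (b * 1)),
    b * (a * (c * 1)),
    c * (a * (c * 1)),
    b * (a * (b * (a * 1))),
    c * (a * (b * (a * 1))),
    b * (a * (c * (a * 1))),
    c * (a * (c * (a * 1))),
    a * (b * (a * (b * 1))),
    a * (c * (a * (b * 1))),
    a * (b * (a * (c * 1))),
    a * (c * (a * (c * 1))),
    a * (b * (a * (b * (a * 1)))),
    a * (c * (a * (b * (a * 1)))),
    a * (b * (a * (c * (a * 1)))),
    a * (c * (a * (c * (a * 1)))),
    c * (a * (b * (a * (b * 1)))),
    b * (a * (c * (a * (b * 1)))),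
    c * (a * (c * (a * (b * 1)))),
    b * (a * (b * (a * (c * 1)))),
    c * (a * (b * (a * (c * 1)))),
    b * (a * (c * (a * (c * 1)))),
    b * (a * (c * (a * (b * (a * 1))))),
    c * (a * (c * (a * (b * (a * 1))))),
    b * (a * (b * (a * (c * (a * 1))))),
    c * (a * (b * (a * (c * (a * 1))))),
    a * (c * (a * (b * (a * (b * 1))))),
    a * (b * (a * (c * (a * (b * 1))))),
    a * (c * (a * (b * (a * (c * 1))))),
    a * (b * (a * (c * (a * (c * 1))))),
    a * (b * (a * (c * (a * (b * (a * 1)))))),
    a * (c * (a * (b * (a * (c * (a * 1)))))),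
    b * (a * (c * (a * (b * (a * (b * 1)))))),
    c * (a * (c * (a * (b * (a * (b * 1)))))),
    b * (a * (b * (a * (c * (a * (b * 1)))))),
    c * (a * (b * (a * (c * (a * (b * 1)))))),
    b * (a * (c * (a * (b * (a * (c * 1)))))),
    c * (a * (c * (a * (b * (a * (c * 1)))))),
    b * (a * (b * (a * (c * (a * (c * 1)))))),
    c * (a * (b * (a * (c * (a * (c * 1)))))),
    c * (a * (b * (a * (c * (a * (b * (a * 1))))))),
    b * (a * (c * (a * (b * (a * (c * (a * 1))))))),
    a * (b * (a * (c * (a * (b * (a * (b * 1))))))),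
    a * (c * (a * (b * (a * (c * (a * (b * 1))))))),
    a * (b * (a * (c * (a * (b * (a * (c * 1))))))),
    a * (c * (a * (b * (a * (c * (a * (c * 1))))))),
    a * (c * (a * (b * (a * (c * (a * (b * (a * 1)))))))),
    a * (b * (a * (c * (a * (b * (a * (c * (a * 1)))))))),
    b * (a * (c * (a * (b * (a * (c * (a * (b * 1)))))))),
    a * (b * (a * (c * (a * (b * (a * (c * (a * (b * 1)))))))))] := ⟨_, rfl⟩

  have h1T : (1 : G) ∈ T := by rw [hT]; exact List.mem_cons_self

  have haT : ∀ g ∈ T, a * g ∈ T := by
    rw [hT]
    intro g hg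
    simp only [List.mem_cons, List.not_mem_nil, or_false] at hg
    rcases hg with rfl | rfl | rfl | rfl | rfl | rfl | rfl | rfl | rfl | rfl | rfl | rfl | rfl | rfl | rfl | rfl | rfl | rfl | rfl | rfl | rfl | rfl | rfl | rfl | rfl | rfl | rfl | rfl | rfl | rfl | rfl | rfl | rfl | rfl | rfl | rfl | rfl | rfl | rfl | rfl | rfl | rfl | rfl | rfl | rfl | rfl | rfl | rfl | rfl | rfl | rfl | rfl | rfl | rfl | rfl | rfl | rfl | rfl | rfl | rfl

    · simp only [List.mem_cons, true_or, or_true]

    · have h : a * (a * 1) = 1 := by rw [r1 1]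
      rw [h]; simp only [List.mem_cons, true_or, or_true]

    · simp only [List.mem_cons, true_or, or_true]

    · simp only [List.mem_cons, true_or, or_true]

    · simp only [List.mem_cons, true_or, or_true]

    · simp only [List.mem_cons, true_or, or_true]

    · have h : a * (a * (b * 1)) = b * 1 := by rw [r1 (b * 1)]
      rw [h]; simp only [List.mem_cons, true_or, or_true]

    · have h : a * (a * (c * 1)) = c * 1 := by rw [r1 (c * 1)]
      rw [h]; simp only [List.mem_cons, true_or, or_true]

    · have h : a * (a * (b * (a * 1))) = b * (a * 1) := by rw [r1 (b * (a * 1))]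
      rw [h]; simp only [List.mem_cons, true_or, or_true]

    · have h : a * (a * (c * (a * 1))) = c * (a * 1) := by rw [r1 (c * (a * 1))]
      rw [h]; simp only [List.mem_cons, true_or, or_true]

    · simp only [List.mem_cons, true_or, or_true]

    · simp only [List.mem_cons, true_or, or_true]

    · simp only [List.mem_cons, true_or, or_true]

    · simp only [List.mem_cons, true_or, or_true]

    · simp only [List.mem_cons, true_or, or_true]

    · simp only [List.mem_cons, true_or, or_true]

    · simp only [List.mem_cons, true_or, or_true]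

    · simp only [List.mem_cons, true_or, or_true]

    · have h : a * (a * (b * (a * (b * 1)))) = b * (a * (b * 1)) := by rw [r1 (b * (a * (b * 1)))]
      rw [h]; simp only [List.mem_cons, true_or, or_true]

    · have h : a * (a * (c * (a * (b * 1)))) = c * (a * (b * 1)) := by rw [r1 (c * (a * (b * 1)))]
      rw [h]; simp only [List.mem_cons, true_or, or_true]

    · have h : a * (a * (b * (a * (c * 1)))) = b * (a * (c * 1)) := by rw [r1 (b * (a * (c * 1)))]
      rw [h]; simp only [List.mem_cons, true_or, or_true]

    · have h : a * (a * (c * (a * (c * 1)))) = c * (a * (c * 1)) := by rw [r1 (c * (a * (c * 1)))]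
      rw [h]; simp only [List.mem_cons, true_or, or_true]

    · have h : a * (a * (b * (a * (b * (a * 1))))) = b * (a * (b * (a * 1))) := by rw [r1 (b * (a * (b * (a * 1))))]
      rw [h]; simp only [List.mem_cons, true_or, or_true]

    · have h : a * (a * (c * (a * (b * (a * 1))))) = c * (a * (b * (a * 1))) := by rw [r1 (c * (a * (b * (a * 1))))]
      rw [h]; simp only [List.mem_cons, true_or, or_true]

    · have h : a * (a * (b * (a * (c * (a * 1))))) = b * (a * (c * (a * 1))) := by rw [r1 (b * (a * (c * (a * 1))))]
      rw [h]; simp only [List.mem_cons, true_or, or_true]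

    · have h : a * (a * (c * (a * (c * (a * 1))))) = c * (a * (c * (a * 1))) := by rw [r1 (c * (a * (c * (a * 1))))]
      rw [h]; simp only [List.mem_cons, true_or, or_true]

    · simp only [List.mem_cons, true_or, or_true]

    · simp only [List.mem_cons, true_or, or_true]

    · have h : a * (c * (a * (c * (a * (b * 1))))) = b * (a * (b * (a * (c * 1)))) := by rw [r20 1]
      rw [h]; simp only [List.mem_cons, true_or, or_true]

    · have h : a * (b * (a * (b * (a * (c * 1))))) = c * (a * (c * (a * (b * 1)))) := by rw [r19 1]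
      rw [h]; simp only [List.mem_cons, true_or, or_true]

    · simp only [List.mem_cons, true_or, or_true]

    · simp only [List.mem_cons, true_or, or_true]

    · simp only [List.mem_cons, true_or, or_true]

    · have h : a * (c * (a * (c * (a * (b * (a * 1)))))) = b * (a * (b * (a * (c * (a * 1))))) := by rw [r20 (a * 1)]
      rw [h]; simp only [List.mem_cons, true_or, or_true]

    · have h : a * (b * (a * (b * (a * (c * (a * 1)))))) = c * (a * (c * (a * (b * (a * 1))))) := by rw [r19 (a * 1)]
      rw [h]; simp only [List.mem_cons, true_or, or_true]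

    · simp only [List.mem_cons, true_or, or_true]

    · have h : a * (a * (c * (a * (b * (a * (b * 1)))))) = c * (a * (b * (a * (b * 1)))) := by rw [r1 (c * (a * (b * (a * (b * 1)))))]
      rw [h]; simp only [List.mem_cons, true_or, or_true]

    · have h : a * (a * (b * (a * (c * (a * (b * 1)))))) = b * (a * (c * (a * (b * 1)))) := by rw [r1 (b * (a * (c * (a * (b * 1)))))]
      rw [h]; simp only [List.mem_cons, true_or, or_true]

    · have h : a * (a * (c * (a * (b * (a * (c * 1)))))) = c * (a * (b * (a * (c * 1)))) := by rw [r1 (c * (a * (b * (a * (c * 1)))))]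
      rw [h]; simp only [List.mem_cons, true_or, or_true]

    · have h : a * (a * (b * (a * (c * (a * (c * 1)))))) = b * (a * (c * (a * (c * 1)))) := by rw [r1 (b * (a * (c * (a * (c * 1)))))]
      rw [h]; simp only [List.mem_cons, true_or, or_true]

    · have h : a * (a * (b * (a * (c * (a * (b * (a * 1))))))) = b * (a * (c * (a * (b * (a * 1))))) := by rw [r1 (b * (a * (c * (a * (b * (a * 1))))))]
      rw [h]; simp only [List.mem_cons, true_or, or_true]

    · have h : a * (a * (c * (a * (b * (a * (c * (a * 1))))))) = c * (a * (b * (a * (c * (a * 1))))) := by rw [r1 (c * (a * (b * (a * (c * (a * 1))))))]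
      rw [h]; simp only [List.mem_cons, true_or, or_true]

    · simp only [List.mem_cons, true_or, or_true]

    · have h : a * (c * (a * (c * (a * (b * (a * (b * 1))))))) = b * (a * (b * (a * (c * (a * (b * 1)))))) := by rw [r20 (a * (b * 1))]
      rw [h]; simp only [List.mem_cons, true_or, or_true]

    · have h : a * (b * (a * (b * (a * (c * (a * (b * 1))))))) = c * (a * (c * (a * (b * (a * (b * 1)))))) := by rw [r19 (a * (b * 1))]
      rw [h]; simp only [List.mem_cons, true_or, or_true]

    · simp only [List.mem_cons, true_or, or_true]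

    · simp only [List.mem_cons, true_or, or_true]

    · have h : a * (c * (a * (c * (a * (b * (a * (c * 1))))))) = b * (a * (b * (a * (c * (a * (c * 1)))))) := by rw [r20 (a * (c * 1))]
      rw [h]; simp only [List.mem_cons, true_or, or_true]

    · have h : a * (b * (a * (b * (a * (c * (a * (c * 1))))))) = c * (a * (c * (a * (b * (a * (c * 1)))))) := by rw [r19 (a * (c * 1))]
      rw [h]; simp only [List.mem_cons, true_or, or_true]

    · simp only [List.mem_cons, true_or, or_true]

    · simp only [List.mem_cons, true_or, or_true]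

    · simp only [List.mem_cons, true_or, or_true]

    · have h : a * (a * (b * (a * (c * (a * (b * (a * (b * 1)))))))) = b * (a * (c * (a * (b * (a * (b * 1)))))) := by rw [r1 (b * (a * (c * (a * (b * (a * (b * 1)))))))]
      rw [h]; simp only [List.mem_cons, true_or, or_true]

    · have h : a * (a * (c * (a * (b * (a * (c * (a * (b * 1)))))))) = c * (a * (b * (a * (c * (a * (b * 1)))))) := by rw [r1 (c * (a * (b * (a * (c * (a * (b * 1)))))))]
      rw [h]; simp only [List.mem_cons, true_or, or_true]

    · have h : a * (a * (b * (a * (c * (a * (b * (a * (c * 1)))))))) = b * (a * (c * (a * (b * (a * (c * 1)))))) := by rw [r1 (b * (a * (c * (a * (b * (a * (c * 1)))))))]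
      rw [h]; simp only [List.mem_cons, true_or, or_true]

    · have h : a * (a * (c * (a * (b * (a * (c * (a * (c * 1)))))))) = c * (a * (b * (a * (c * (a * (c * 1)))))) := by rw [r1 (c * (a * (b * (a * (c * (a * (c * 1)))))))]
      rw [h]; simp only [List.mem_cons, true_or, or_true]

    · have h : a * (a * (c * (a * (b * (a * (c * (a * (b * (a * 1))))))))) = c * (a * (b * (a * (c * (a * (b * (a * 1))))))) := by rw [r1 (c * (a * (b * (a * (c * (a * (b * (a * 1))))))))]
      rw [h]; simp only [List.mem_cons, true_or, or_true]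

    · have h : a * (a * (b * (a * (c * (a * (b * (a * (c * (a * 1))))))))) = b * (a * (c * (a * (b * (a * (c * (a * 1))))))) := by rw [r1 (b * (a * (c * (a * (b * (a * (c * (a * 1))))))))]
      rw [h]; simp only [List.mem_cons, true_or, or_true]

    · simp only [List.mem_cons, true_or, or_true]

    · have h : a * (a * (b * (a * (c * (a * (b * (a * (c * (a * (b * 1)))))))))) = b * (a * (c * (a * (b * (a * (c * (a * (b * 1)))))))) := by rw [r1 (b * (a * (c * (a * (b * (a * (c * (a * (b * 1)))))))))]
      rw [h]; simp only [List.mem_cons, true_or, or_true]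

  have hbT : ∀ g ∈ T, b * g ∈ T := by
    rw [hT]
    intro g hg
    simp only [List.mem_cons, List.not_mem_nil, or_false] at hg
    rcases hg with rfl | rfl | rfl | rfl | rfl | rfl | rfl | rfl | rfl | rfl | rfl | rfl | rfl | rfl | rfl | rfl | rfl | rfl | rfl | rfl | rfl | rfl | rfl | rfl | rfl | rfl | rfl | rfl | rfl | rfl | rfl | rfl | rfl | rfl | rfl | rfl | rfl | rfl | rfl | rfl | rfl | rfl | rfl | rfl | rfl | rfl | rfl | rfl | rfl | rfl | rfl | rfl | rfl | rfl | rfl | rfl | rfl | rfl | rfl | rfl

    · simp only [List.mem_cons, true_or, or_true]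

    · simp only [List.mem_cons, true_or, or_true]

    · have h : b * (b * 1) = c * 1 := by rw [r2 1]
      rw [h]; simp only [List.mem_cons, true_or, or_true]

    · have h : b * (c * 1) = 1 := by rw [r3 1]
      rw [h]; simp only [List.mem_cons, true_or, or_true]

    · have h : b * (b * (a * 1)) = c * (a * 1) := by rw [r2 (a * 1)]
      rw [h]; simp only [List.mem_cons, true_or, or_true]

    · have h : b * (c * (a * 1)) = a * 1 := by rw [r3 (a * 1)]
      rw [h]; simp only [List.mem_cons, true_or, or_true]

    · simp only [List.mem_cons, true_or, or_true]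

    · simp only [List.mem_cons, true_or, or_true]

    · simp only [List.mem_cons, true_or, or_true]

    · simp only [List.mem_cons, true_or, or_true]

    · have h : b * (b * (a * (b * 1))) = c * (a * (b * 1)) := by rw [r2 (a * (b * 1))]
      rw [h]; simp only [List.mem_cons, true_or, or_true]

    · have h : b * (c * (a * (b * 1))) = a * (b * 1) := by rw [r3 (a * (b * 1))]
      rw [h]; simp only [List.mem_cons, true_or, or_true]

    · have h : b * (b * (a * (c * 1))) = c * (a * (c * 1)) := by rw [r2 (a * (c * 1))]
      rw [h]; simp only [List.mem_cons, true_or, or_true]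

    · have h : b * (c * (a * (c * 1))) = a * (c * 1) := by rw [r3 (a * (c * 1))]
      rw [h]; simp only [List.mem_cons, true_or, or_true]

    · have h : b * (b * (a * (b * (a * 1)))) = c * (a * (b * (a * 1))) := by rw [r2 (a * (b * (a * 1)))]
      rw [h]; simp only [List.mem_cons, true_or, or_true]

    · have h : b * (c * (a * (b * (a * 1)))) = a * (b * (a * 1)) := by rw [r3 (a * (b * (a * 1)))]
      rw [h]; simp only [List.mem_cons, true_or, or_true]

    · have h : b * (b * (a * (c * (a * 1)))) = c * (a * (c * (a * 1))) := by rw [r2 (a * (c * (a * 1)))]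
      rw [h]; simp only [List.mem_cons, true_or, or_true]

    · have h : b * (c * (a * (c * (a * 1)))) = a * (c * (a * 1)) := by rw [r3 (a * (c * (a * 1)))]
      rw [h]; simp only [List.mem_cons, true_or, or_true]

    · have h : b * (a * (b * (a * (b * 1)))) = a * (c * (a * (c * (a * 1)))) := by rw [r17 1]
      rw [h]; simp only [List.mem_cons, true_or, or_true]

    · simp only [List.mem_cons, true_or, or_true]

    · simp only [List.mem_cons, true_or, or_true]

    · simp only [List.mem_cons, true_or, or_true]

    · have h : b * (a * (b * (a * (b * (a * 1))))) = a * (c * (a * (c * 1))) := by rw [r17 (a * 1), r1 1]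
      rw [h]; simp only [List.mem_cons, true_or, or_true]

    · simp only [List.mem_cons, true_or, or_true]

    · simp only [List.mem_cons, true_or, or_true]

    · have h : b * (a * (c * (a * (c * (a * 1))))) = c * (a * (b * (a * (b * 1)))) := by rw [r21 1]
      rw [h]; simp only [List.mem_cons, true_or, or_true]

    · have h : b * (c * (a * (b * (a * (b * 1))))) = a * (b * (a * (b * 1))) := by rw [r3 (a * (b * (a * (b * 1))))]
      rw [h]; simp only [List.mem_cons, true_or, or_true]

    · have h : b * (b * (a * (c * (a * (b * 1))))) = c * (a * (c * (a * (b * 1)))) := by rw [r2 (a * (c * (a * (b * 1))))]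
      rw [h]; simp only [List.mem_cons, true_or, or_true]

    · have h : b * (c * (a * (c * (a * (b * 1))))) = a * (c * (a * (b * 1))) := by rw [r3 (a * (c * (a * (b * 1))))]
      rw [h]; simp only [List.mem_cons, true_or, or_true]

    · have h : b * (b * (a * (b * (a * (c * 1))))) = c * (a * (b * (a * (c * 1)))) := by rw [r2 (a * (b * (a * (c * 1))))]
      rw [h]; simp only [List.mem_cons, true_or, or_true]

    · have h : b * (c * (a * (b * (a * (c * 1))))) = a * (b * (a * (c * 1))) := by rw [r3 (a * (b * (a * (c * 1))))]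
      rw [h]; simp only [List.mem_cons, true_or, or_true]

    · have h : b * (b * (a * (c * (a * (c * 1))))) = a * (b * (a * (b * (a * 1)))) := by rw [r2 (a * (c * (a * (c * 1)))), r16 1]
      rw [h]; simp only [List.mem_cons, true_or, or_true]

    · have h : b * (b * (a * (c * (a * (b * (a * 1)))))) = c * (a * (c * (a * (b * (a * 1))))) := by rw [r2 (a * (c * (a * (b * (a * 1)))))]
      rw [h]; simp only [List.mem_cons, true_or, or_true]

    · have h : b * (c * (a * (c * (a * (b * (a * 1)))))) = a * (c * (a * (b * (a * 1)))) := by rw [r3 (a * (c * (a * (b * (a * 1)))))]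
      rw [h]; simp only [List.mem_cons, true_or, or_true]

    · have h : b * (b * (a * (b * (a * (c * (a * 1)))))) = c * (a * (b * (a * (c * (a * 1))))) := by rw [r2 (a * (b * (a * (c * (a * 1)))))]
      rw [h]; simp only [List.mem_cons, true_or, or_true]

    · have h : b * (c * (a * (b * (a * (c * (a * 1)))))) = a * (b * (a * (c * (a * 1)))) := by rw [r3 (a * (b * (a * (c * (a * 1)))))]
      rw [h]; simp only [List.mem_cons, true_or, or_true]

    · simp only [List.mem_cons, true_or, or_true]

    · simp only [List.mem_cons, true_or, or_true]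

    · simp only [List.mem_cons, true_or, or_true]

    · simp only [List.mem_cons, true_or, or_true]

    · have h : b * (a * (b * (a * (c * (a * (b * (a * 1))))))) = a * (c * (a * (b * (a * (c * (a * (c * 1))))))) := by rw [r23 1]
      rw [h]; simp only [List.mem_cons, true_or, or_true]

    · simp only [List.mem_cons, true_or, or_true]

    · have h : b * (b * (a * (c * (a * (b * (a * (b * 1))))))) = c * (a * (c * (a * (b * (a * (b * 1)))))) := by rw [r2 (a * (c * (a * (b * (a * (b * 1))))))]
      rw [h]; simp only [List.mem_cons, true_or, or_true]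

    · have h : b * (c * (a * (c * (a * (b * (a * (b * 1))))))) = a * (c * (a * (b * (a * (b * 1))))) := by rw [r3 (a * (c * (a * (b * (a * (b * 1))))))]
      rw [h]; simp only [List.mem_cons, true_or, or_true]

    · have h : b * (b * (a * (b * (a * (c * (a * (b * 1))))))) = c * (a * (b * (a * (c * (a * (b * 1)))))) := by rw [r2 (a * (b * (a * (c * (a * (b * 1))))))]
      rw [h]; simp only [List.mem_cons, true_or, or_true]

    · have h : b * (c * (a * (b * (a * (c * (a * (b * 1))))))) = a * (b * (a * (c * (a * (b * 1))))) := by rw [r3 (a * (b * (a * (c * (a * (b * 1))))))]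
      rw [h]; simp only [List.mem_cons, true_or, or_true]

    · have h : b * (b * (a * (c * (a * (b * (a * (c * 1))))))) = c * (a * (c * (a * (b * (a * (c * 1)))))) := by rw [r2 (a * (c * (a * (b * (a * (c * 1))))))]
      rw [h]; simp only [List.mem_cons, true_or, or_true]

    · have h : b * (c * (a * (c * (a * (b * (a * (c * 1))))))) = a * (c * (a * (b * (a * (c * 1))))) := by rw [r3 (a * (c * (a * (b * (a * (c * 1))))))]
      rw [h]; simp only [List.mem_cons, true_or, or_true]

    · have h : b * (b * (a * (b * (a * (c * (a * (c * 1))))))) = c * (a * (b * (a * (c * (a * (c * 1)))))) := by rw [r2 (a * (b * (a * (c * (a * (c * 1))))))]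
      rw [h]; simp only [List.mem_cons, true_or, or_true]

    · have h : b * (c * (a * (b * (a * (c * (a * (c * 1))))))) = a * (b * (a * (c * (a * (c * 1))))) := by rw [r3 (a * (b * (a * (c * (a * (c * 1))))))]
      rw [h]; simp only [List.mem_cons, true_or, or_true]

    · have h : b * (c * (a * (b * (a * (c * (a * (b * (a * 1)))))))) = a * (b * (a * (c * (a * (b * (a * 1)))))) := by rw [r3 (a * (b * (a * (c * (a * (b * (a * 1)))))))]
      rw [h]; simp only [List.mem_cons, true_or, or_true]

    · have h : b * (b * (a * (c * (a * (b * (a * (c * (a * 1)))))))) = a * (b * (a * (c * (a * (b * (a * (b * 1))))))) := by rw [r2 (a * (c * (a * (b * (a * (c * (a * 1))))))), r28 1]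
      rw [h]; simp only [List.mem_cons, true_or, or_true]

    · have h : b * (a * (b * (a * (c * (a * (b * (a * (b * 1)))))))) = a * (c * (a * (b * (a * (c * (a * 1)))))) := by rw [r23 (b * 1), r4 1]
      rw [h]; simp only [List.mem_cons, true_or, or_true]

    · simp only [List.mem_cons, true_or, or_true]

    · have h : b * (a * (b * (a * (c * (a * (b * (a * (c * 1)))))))) = a * (c * (a * (b * (a * (c * (a * (b * 1))))))) := by rw [r23 (c * 1), r5 1]
      rw [h]; simp only [List.mem_cons, true_or, or_true]

    · have h : b * (a * (c * (a * (b * (a * (c * (a * (c * 1)))))))) = c * (a * (b * (a * (c * (a * (b * (a * 1))))))) := by rw [r24 1]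
      rw [h]; simp only [List.mem_cons, true_or, or_true]

    · have h : b * (a * (c * (a * (b * (a * (c * (a * (b * (a * 1))))))))) = a * (b * (a * (c * (a * (b * (a * (c * (a * (b * 1))))))))) := by rw [r30 1]
      rw [h]; simp only [List.mem_cons, true_or, or_true]

    · have h : b * (a * (b * (a * (c * (a * (b * (a * (c * (a * 1))))))))) = a * (c * (a * (b * (a * (c * (a * (b * (a * 1)))))))) := by rw [r23 (c * (a * 1)), r5 (a * 1)]
      rw [h]; simp only [List.mem_cons, true_or, or_true]

    · have h : b * (b * (a * (c * (a * (b * (a * (c * (a * (b * 1))))))))) = a * (b * (a * (c * (a * (b * (a * (c * 1))))))) := by rw [r2 (a * (c * (a * (b * (a * (c * (a * (b * 1)))))))), r28 (b * 1), r2 1]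
      rw [h]; simp only [List.mem_cons, true_or, or_true]

    · have h : b * (a * (b * (a * (c * (a * (b * (a * (c * (a * (b * 1)))))))))) = a * (b * (a * (c * (a * (b * (a * (c * (a * 1)))))))) := by rw [r23 (c * (a * (b * 1))), r5 (a * (b * 1)), r26 1]
      rw [h]; simp only [List.mem_cons, true_or, or_true]

  refine ⟨T, by rw [hT]; rfl, ?_⟩
  have hcT : ∀ g ∈ T, c * g ∈ T := by
    intro g hg
    rw [← r2]
    exact hbT _ (hbT _ hg)
  intro g hg
  have key : ∀ x ∈ Subgroup.closure ({a, b} : Set G), ∀ t ∈ T, x * t ∈ T := by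
    intro x hx
    induction hx using Subgroup.closure_induction'' with
    | one => intro t ht; rwa [one_mul]
    | mem x hx =>
      simp only [Set.mem_insert_iff, Set.mem_singleton_iff] at hx
      rcases hx with h | h
      · rw [h]; exact haT
      · rw [h]; exact hbT
    | inv_mem x hx =>
      simp only [Set.mem_insert_iff, Set.mem_singleton_iff] at hx
      rcases hx with h | h
      · have : x⁻¹ = a := by rw [h]; exact inv_eq_of_mul_eq_one_left ha
        rw [this]; exact haT
      · have : x⁻¹ = c := by
          rw [h]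
          apply inv_eq_of_mul_eq_one_left
          rw [← hc]; exact hb
        rw [this]; exact hcT
    | mul x y hx hy h1 h2 => intro t ht; rw [mul_assoc]; exact h1 _ (h2 _ ht)
  have := key g hg 1 h1T
  rwa [mul_one] at this

end Pool.Agent.R682
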